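import Pool.Agent.T2H99.AW.FI
import Pool.Agent.T2H99.AW.U7
import Pool.Agent.T2H99.AW.CO2
import Pool.Agent.T2H99.AW.EX2

set_option autoImplicit false

/-!
# Recurrence of both colours in two-type annihilating random walks (MP_0e9fac_pr, Q1): YES

The Bramson-Lebowitz two-type annihilation model on `ℤ^d`, any `d ≥ 1`, with independent continuous
time simple random walks of rate `1` and a `p`-random Bernoulli colouring, `p ∈ [1/2, 1)`.

* the model exists, and the systems on finite sets of labels `An n` increasing to `ℤ^d` converge:
  almost surely, for every time horizon and every site, the numbers of red and of blue particles at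
  this site at all times up to the horizon do not depend on `n` for large `n`;
* (i) for `p = 1/2` almost surely the origin is visited infinitely many times by both colours;
* (ii) for `p > 1/2` almost surely the origin is visited only finitely many times by blue particles
  (so it is not almost surely true that both colours visit infinitely many times).
-/

namespace Pool.Agent.Results.MP_0e9fac_pr.BothColoursRecurrent

open Pool.Agent.T2H99.AW
open Finset Filter Topology MeasureTheory ProbabilityTheory
open scoped NNReal ENNReal BigOperators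

/-- In the infinite system (the limit of the systems on the finite label sets `An n`) the origin is
visited infinitely many times by particles of colour `b`: there are arbitrarily large times `t` at
which the origin holds at least one particle of colour `b` that is alive in the system on `An n` for
all large `n`. -/
def VisitedIO {d : ℕ} {Ω : Type} (c : Site d → Ω → Bool) (S : Site d → ℝ≥0 → Ω → Site d)
    (alive : Finset (Site d) → ℝ≥0 → Ω → Finset (Site d)) (An : ℕ → Finset (Site d))
    (b : Bool) (ω : Ω) : Prop :=
  ∀ T : ℝ≥0, ∃ t : ℝ≥0, T ≤ t ∧ ∀ᶠ n in atTop, ∃ x ∈ alive (An n) t ω, c x ω = b ∧ posn S ω t x = 0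

/-- The number of particles of colour `b` at the site `z` at time `t` in the system on the finite
set of labels `A`. -/
noncomputable def number {d : ℕ} {Ω : Type} (c : Site d → Ω → Bool)
    (S : Site d → ℝ≥0 → Ω → Site d) (alive : Finset (Site d) → ℝ≥0 → Ω → Finset (Site d))
    (A : Finset (Site d)) (t : ℝ≥0) (b : Bool) (z : Site d) (ω : Ω) : ℕ :=
  ((alive A t ω).filter (fun x => c x ω = b ∧ posn S ω t x = z)).card

theorem result (d : ℕ) (hd : 0 < d) (p : ℝ) (hp : 1 / 2 ≤ p) (hp1 : p < 1) :
    -- the model exists
    (∃ (Ω : Type) (_ : MeasurableSpace Ω) (μ : Measure Ω) (_ : IsProbabilityMeasure μ)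
      (c : Site d → Ω → Bool) (S : Site d → ℝ≥0 → Ω → Site d)
      (alive : Finset (Site d) → ℝ≥0 → Ω → Finset (Site d)), Sys μ p c S alive) ∧
    -- in every realisation of the model, for every exhaustion of `ℤ^d` by finite sets of labels
    ∀ (Ω : Type) [MeasurableSpace Ω] (μ : Measure Ω) [IsProbabilityMeasure μ]
      (c : Site d → Ω → Bool) (S : Site d → ℝ≥0 → Ω → Site d)
      (alive : Finset (Site d) → ℝ≥0 → Ω → Finset (Site d)), Sys μ p c S alive →
      ∀ An : ℕ → Finset (Site d), Monotone An → (∀ x, ∃ n, x ∈ An n) →
        -- the infinite system is well defined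
        (∀ᵐ ω ∂μ, ∀ (T : ℕ) (z : Site d), ∀ᶠ n in atTop, ∀ n' : ℕ, n ≤ n' → ∀ t : ℝ≥0, t ≤ T →
          ∀ b : Bool,
            number c S alive (An n') t b z ω = number c S alive (An n) t b z ω) ∧
        -- (i)
        (p = 1 / 2 →
          ∀ᵐ ω ∂μ, VisitedIO c S alive An true ω ∧ VisitedIO c S alive An false ω) ∧
        -- (ii)
        (1 / 2 < p → (∀ᵐ ω ∂μ, ¬ VisitedIO c S alive An false ω) ∧
          ¬ ∀ᵐ ω ∂μ, VisitedIO c S alive An true ω ∧ VisitedIO c S alive An false ω) := by
  refine ⟨exists_sys d hd p (by linarith) hp1.le, ?_⟩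
  intro Ω _ μ _ c S alive hS An hmono hex
  refine ⟨consistent hd hS hmono, ?_, ?_⟩
  · rintro rfl
    have h : ∀ b : Bool, ∀ᵐ ω ∂μ, VisitedIO c S alive An b ω := by
      intro b
      filter_upwards [part_i hd hS hmono hex b] with ω hω T
      obtain ⟨N, hN⟩ := exists_nat_ge T
      obtain ⟨k, hk, h⟩ := hω N
      exact ⟨k, hN.trans (by exact_mod_cast hk), h⟩
    filter_upwards [h true, h false] with ω h1 h2 using ⟨h1, h2⟩
  · intro hp2
    have h : ∀ᵐ ω ∂μ, ¬ VisitedIO c S alive An false ω := by
      filter_upwards [part_ii hd hp2 hp1 hS hmono hex] with ω hω hv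
      obtain ⟨T, hT⟩ := hω
      obtain ⟨t, ht, h⟩ := hv T
      exact hT t ht h
    refine ⟨h, fun h' => ?_⟩
    have h3 : ∀ᵐ ω ∂μ, False := by
      filter_upwards [h, h'] with ω h1 h2 using h1 h2.2
    have := h3.exists
    exact this.elim fun _ hF => hF

end Pool.Agent.Results.MP_0e9fac_pr.BothColoursRecurrent
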